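import Pool.Agent.H.MP_fd3e90_al.B

set_option autoImplicit false

namespace Pool.Agent.Results.MP_fd3e90_al.Yes

/-- terms of the group signature with one constant for each element of `G` -/
inductive Tm (G : Type) : Type
  | var : ℕ → Tm G
  | const : G → Tm G
  | one : Tm G
  | mul : Tm G → Tm G → Tm G
  | inv : Tm G → Tm G

/-- value of a term in a group `M`, constants read through `c`, variables through `x` -/
def Tm.ev {G M : Type} [Group M] (c : G → M) (x : ℕ → M) : Tm G → M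
  | .var n => x n
  | .const g => c g
  | .one => 1
  | .mul u v => u.ev c x * v.ev c x
  | .inv u => (u.ev c x)⁻¹

/-- substitution of terms for variables -/
def Tm.sub {G : Type} (s : ℕ → Tm G) : Tm G → Tm G
  | .var n => s n
  | .const g => .const g
  | .one => .one
  | .mul u v => .mul (u.sub s) (v.sub s)
  | .inv u => .inv (u.sub s)

/-- equational consequences of a set `S` of identities -/
inductive Cons {G : Type} (S : Set (Tm G × Tm G)) : Tm G → Tm G → Prop
  | ax {u v : Tm G} : (u, v) ∈ S → Cons S u v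
  | refl (u : Tm G) : Cons S u u
  | symm {u v : Tm G} : Cons S u v → Cons S v u
  | trans {u v w : Tm G} : Cons S u v → Cons S v w → Cons S u w
  | mul {u v u' v' : Tm G} : Cons S u v → Cons S u' v' → Cons S (.mul u u') (.mul v v')
  | inv {u v : Tm G} : Cons S u v → Cons S (.inv u) (.inv v)
  | sub {u v : Tm G} (s : ℕ → Tm G) : Cons S u v → Cons S (u.sub s) (v.sub s)

/-- the mixed identities of `G` -/
def Mixed (G : Type) [Group G] : Set (Tm G × Tm G) :=
  {p | ∀ x : ℕ → G, p.1.ev id x = p.2.ev id x}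

lemma ev_sub {G M : Type} [Group M] (c : G → M) (x : ℕ → M) (s : ℕ → Tm G) (u : Tm G) :
    (u.sub s).ev c x = u.ev c fun n => (s n).ev c x := by
  induction u with
  | var n => rfl
  | const g => rfl
  | one => rfl
  | mul u v hu hv => simp only [Tm.sub, Tm.ev, hu, hv]
  | inv u hu => simp only [Tm.sub, Tm.ev, hu]

lemma sound {G M : Type} [Group M] (c : G → M) {S : Set (Tm G × Tm G)}
    (h : ∀ p ∈ S, ∀ x : ℕ → M, p.1.ev c x = p.2.ev c x) {u v : Tm G} (huv : Cons S u v) :
    ∀ x : ℕ → M, u.ev c x = v.ev c x := by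
  induction huv with
  | ax h1 => exact h _ h1
  | refl u => exact fun _ => rfl
  | symm _ ih => exact fun x => (ih x).symm
  | trans _ _ ih1 ih2 => exact fun x => (ih1 x).trans (ih2 x)
  | mul _ _ ih1 ih2 => exact fun x => by simp only [Tm.ev, ih1 x, ih2 x]
  | inv _ ih => exact fun x => by simp only [Tm.ev, ih x]
  | sub s _ ih => exact fun x => by rw [ev_sub, ev_sub, ih]

/-- the word of a term -/
def wd {G : Type} (u : Tm G) : FreeGroup (ℕ ⊕ G) :=
  u.ev (fun g => FreeGroup.of (Sum.inr g)) fun n => FreeGroup.of (Sum.inl n)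

lemma wd_ev {G M : Type} [Group M] (c : G → M) (x : ℕ → M) (u : Tm G) :
    FreeGroup.lift (Sum.elim x c) (wd u) = u.ev c x := by
  induction u with
  | var n => simp [wd, Tm.ev]
  | const g => simp [wd, Tm.ev]
  | one => simp [wd, Tm.ev]
  | mul u v hu hv => rw [show wd (.mul u v) = wd u * wd v from rfl, map_mul, hu, hv]; rfl
  | inv u hu => rw [show wd (.inv u) = (wd u)⁻¹ from rfl, map_inv, hu]; rfl

lemma wd_surj {G : Type} (w : FreeGroup (ℕ ⊕ G)) : ∃ u, wd u = w := by
  induction w using FreeGroup.induction_on with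
  | C1 => exact ⟨.one, rfl⟩
  | of a =>
    rcases a with n | g
    · exact ⟨.var n, rfl⟩
    · exact ⟨.const g, rfl⟩
  | inv_of a ih =>
    obtain ⟨u, hu⟩ := ih
    exact ⟨.inv u, congrArg (·⁻¹) hu⟩
  | mul a b iha ihb =>
    obtain ⟨u, rfl⟩ := iha
    obtain ⟨v, rfl⟩ := ihb
    exact ⟨.mul u v, rfl⟩

theorem result : ∃ (G : Type) (_ : Group G) (_ : Finite G),
    ¬ ∃ S ⊆ Mixed G, S.Finite ∧ ∀ p ∈ Mixed G, Cons S p.1 p.2 := by
  obtain ⟨G, _, _, h⟩ := Pool.Agent.H.MP_fd3e90_al.main Pool.Agent.H.MP_fd3e90_al.data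
  refine ⟨G, inferInstance, inferInstance, ?_⟩
  rintro ⟨S, h1, h2, h3⟩
  obtain ⟨H, _, c, h4, w, h5, x, h6⟩ := h ((fun p => wd p.1 * (wd p.2)⁻¹) '' S) (h2.image _) (by
    rintro _ ⟨p, hp, rfl⟩ x
    rw [map_mul, map_inv, wd_ev, wd_ev, h1 hp x, mul_inv_cancel])
  obtain ⟨u, rfl⟩ := wd_surj w
  refine h6 ((wd_ev _ _ _).trans (sound c (fun p hp y => ?_)
    (h3 (u, .one) fun y => (wd_ev _ _ _).symm.trans (h5 y)) x))
  have := h4 _ ⟨p, hp, rfl⟩ y
  rwa [map_mul, map_inv, wd_ev, wd_ev, mul_inv_eq_one] at this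

end Pool.Agent.Results.MP_fd3e90_al.Yes
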